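import Pool.Agent.KS6_36.RB.Stab

/-!
# The ball maximises the first Robin eigenvalue for given surface area, with a stability term

The definitions `E n`, `surf n`, `lam1`, `IsLipschitzDomain` are those of
`Pool/Graph/R_pool_sql_team_seeded_620a6dc7/Helper876_Robin/{Defs,LDom}.lean`:

* `E n` is the Euclidean space `ℝⁿ`, `surf n` is the `(n-1)`-dimensional Hausdorff measure on it in
  its Euclidean normalisation;
* `lam1 Ω α` is the first Robin eigenvalue: the infimum (an extended real number) of
  `(∫_Ω |∇u|² + α ∫_∂Ω u² dσ) / ∫_Ω u²` over the functions `u` of class `C¹` on `ℝⁿ` with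
  `∫_Ω u² > 0` (these are dense in `H¹(Ω)` for a bounded Lipschitz domain `Ω`);
* `IsLipschitzDomain Ω`: `Ω` is open, connected, bounded, and near each boundary point it is the part
  of space below the graph of a Lipschitz function.
-/

set_option autoImplicit false

open MeasureTheory Set Metric Filter Topology
open scoped ENNReal NNReal InnerProductSpace

namespace Pool.Agent.Results.MP_7b7880_an.StableBall

open Pool.Agent.Helper876.Rob

/-- **Theorem.** Let `n ≥ 2`, `R > 0`, `α < 0` and let `B` be a ball of radius `R` in `ℝⁿ`.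

1. Every bounded Lipschitz domain `Ω` whose boundary has at most the surface area of `∂B` satisfies
   `λ₁(Ω; α) ≤ λ₁(B; α)`, and equality holds only if `Ω` is a ball of radius `R`.
2. The same is true for all nonempty bounded open sets `Ω` (the equality case for those which are
   the interior of their closure).
3. Stability: there is a constant `c > 0` (depending on `n`, `R`, `α` only) such that
   `|Ω| ≤ |B|` and `λ₁(Ω; α) + c (|B| - |Ω|) ≤ λ₁(B; α)`
   for all bounded open sets `Ω` with `H^{n-1}(∂Ω) = H^{n-1}(∂B)`. -/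
theorem result (n : ℕ) (hn : 2 ≤ n) (R α : ℝ) (hR : 0 < R) (hα : α < 0) :
    IsLipschitzDomain (ball (0 : E n) R) ∧
    (∀ Ω : Set (E n), IsLipschitzDomain Ω →
      surf n (frontier Ω) ≤ surf n (frontier (ball (0 : E n) R)) →
      lam1 Ω α ≤ lam1 (ball (0 : E n) R) α ∧
        (lam1 Ω α = lam1 (ball (0 : E n) R) α → ∃ c : E n, Ω = ball c R)) ∧
    (∀ Ω : Set (E n), IsOpen Ω → Ω.Nonempty → Bornology.IsBounded Ω →
      surf n (frontier Ω) ≤ surf n (frontier (ball (0 : E n) R)) →
      lam1 Ω α ≤ lam1 (ball (0 : E n) R) α ∧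
        (lam1 Ω α = lam1 (ball (0 : E n) R) α → interior (closure Ω) = Ω →
          ∃ c : E n, Ω = ball c R)) ∧
    ∃ c : ℝ, 0 < c ∧ ∀ Ω : Set (E n), IsOpen Ω → Bornology.IsBounded Ω →
      surf n (frontier Ω) = surf n (frontier (ball (0 : E n) R)) →
      0 ≤ volume.real (ball (0 : E n) R) - volume.real Ω ∧
      lam1 Ω α + ((c * (volume.real (ball (0 : E n) R) - volume.real Ω) : ℝ) : EReal) ≤
        lam1 (ball (0 : E n) R) α := by
  refine ⟨ball_lipschitz hn hR, ?_, ?_, Pool.Agent.KS6_36.RB.stab hn hR hα⟩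
  · intro Ω hΩ hper
    obtain ⟨h1, h2⟩ := Pool.Agent.KS6_36.RB.main hn hR hα hΩ.isOpen hΩ.isConnected.nonempty
      hΩ.isBounded hper
    exact ⟨h1, fun heq => h2 heq
      (Pool.Agent.Helper876.LLipG.lip_int n Ω hΩ.isOpen hΩ.graph)⟩
  · intro Ω hΩ hne hb hper
    exact Pool.Agent.KS6_36.RB.main hn hR hα hΩ hne hb hper

end Pool.Agent.Results.MP_7b7880_an.StableBall
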